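import Mathlib
import Pool.Agent.Helper3.UMain

open Polynomial Filter

namespace Pool.Agent.Results.MP_31d6d8_nt.UNumbersDivisor

open Pool.Agent.Helper3.UExp

lemma bound {m : ℕ} {ζ : ℝ} (hU : IsUNumberOfType m ζ) (n : ℕ) :
    wHat n ζ ≤ ((n / m * m : ℕ) : EReal) + min ((m - 1 : ℕ) : EReal) (wExp (n % m) ζ) := by
  have hm1 : 1 ≤ m := hU.1
  by_contra hcon
  push Not at hcon
  have hA : ((n / m * m : ℕ) : EReal) = (((n / m * m : ℕ) : ℝ) : EReal) := by simp
  have hB : ((m - 1 : ℕ) : EReal) = (((m : ℝ) - 1 : ℝ) : EReal) := by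
    have : ((m - 1 : ℕ) : ℝ) = (m : ℝ) - 1 := by rw [Nat.cast_sub hm1]; simp
    rw [← this]; simp
  have hne : wExp (n % m) ζ ≠ ⊤ := by
    rcases Nat.eq_zero_or_pos (n % m) with h0 | h0
    · rw [h0, wExp_zero]; simp
    · exact hU.2.2 _ h0 (Nat.mod_lt _ (by omega))
  have hnn := wExp_nonneg (n % m) ζ
  obtain ⟨r, hr⟩ : ∃ r : ℝ, wExp (n % m) ζ = (r : EReal) := by
    refine ⟨(wExp (n % m) ζ).toReal, (EReal.coe_toReal hne ?_).symm⟩
    intro hbot
    rw [hbot] at hnn
    simp at hnn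
  have hr0 : 0 ≤ r := by
    rw [hr] at hnn; exact_mod_cast hnn
  rw [hA, hB, hr] at hcon
  rcases min_cases (((m : ℝ) - 1 : ℝ) : EReal) (r : EReal) with ⟨hmin, _⟩ | ⟨hmin, _⟩
  · rw [hmin, ← EReal.coe_add] at hcon
    obtain ⟨w, hw, hG⟩ := eventually_G hcon
    have hm1' : (0 : ℝ) ≤ m - 1 := by
      have : (1 : ℝ) ≤ m := by exact_mod_cast hm1
      linarith
    exact core hU w (m - 1) hm1' hw (Or.inl rfl) hG
  · rw [hmin, ← EReal.coe_add] at hcon
    obtain ⟨w, hw, hG⟩ := eventually_G hcon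
    set A : ℝ := ((n / m * m : ℕ) : ℝ) with hAdef
    have hκ : wExp (n % m) ζ < (((r + (w - A)) / 2 : ℝ) : EReal) := by
      rw [hr]
      have : r < (r + (w - A)) / 2 := by linarith
      exact_mod_cast this
    exact core hU w ((r + (w - A)) / 2) (by linarith) (by linarith)
      (Or.inr (eventually_not_G hκ)) hG

lemma bound_of_dvd {m : ℕ} {ζ : ℝ} (hU : IsUNumberOfType m ζ) (n : ℕ)
    (hmn : m ∣ n ∨ m ∣ n + 1) : wHat n ζ ≤ (n : EReal) := by
  have hm1 : 1 ≤ m := hU.1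
  have hb := bound hU n
  rcases hmn with h | h
  · have h0 : n % m = 0 := Nat.mod_eq_zero_of_dvd h
    have h1 : n / m * m = n := Nat.div_mul_cancel h
    rw [h0, h1, wExp_zero] at hb
    refine hb.trans ?_
    calc (n : EReal) + min ((m - 1 : ℕ) : EReal) 0 ≤ (n : EReal) + 0 := by
          gcongr
          exact min_le_right _ _
      _ = n := add_zero _
  · have h1 : n / m * m + (m - 1) = n := by
      obtain ⟨k, hk⟩ := h
      have hk1 : 1 ≤ k := by
        rcases Nat.eq_zero_or_pos k with h0 | h0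
        · rw [h0] at hk; omega
        · exact h0
      obtain ⟨k', rfl⟩ : ∃ k', k = k' + 1 := ⟨k - 1, by omega⟩
      have h2 : n = k' * m + (m - 1) := by
        have : m * (k' + 1) = k' * m + m := by ring
        omega
      have h3 : n / m = k' := by
        rw [h2]
        rw [Nat.div_eq_of_lt_le]
        · omega
        · rw [Nat.add_mul]; omega
      rw [h3]; omega
    refine hb.trans ?_
    calc ((n / m * m : ℕ) : EReal) + min ((m - 1 : ℕ) : EReal) (wExp (n % m) ζ)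
        ≤ ((n / m * m : ℕ) : EReal) + ((m - 1 : ℕ) : EReal) := by
          gcongr
          exact min_le_left _ _
      _ = ((n / m * m + (m - 1) : ℕ) : EReal) := by rw [Nat.cast_add]
      _ = n := by rw [h1]

/-- Let `ζ` be a `U`-number of type `m` and `n ≥ 1`.  Then the uniform exponent in degree `n` is at
most `⌊n / m⌋ m + min (m - 1, w_d(ζ))`, where `d = n mod m`.  In particular it is at most `n` when
`m` divides `n` or `n + 1`.  Consequently, if the uniform exponent in degree `3` exceeds `3`, then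
`w_4(ζ)` is finite. -/
theorem result :
    (∀ (ζ : ℝ) (m n : ℕ), IsUNumberOfType m ζ → 1 ≤ n →
      wHat n ζ ≤ ((n / m * m : ℕ) : EReal) + min ((m - 1 : ℕ) : EReal) (wExp (n % m) ζ) ∧
      (m ∣ n ∨ m ∣ n + 1 → wHat n ζ ≤ (n : EReal))) ∧
    (∀ ζ : ℝ, (3 : EReal) < wHat 3 ζ → wExp 4 ζ ≠ ⊤) := by
  refine ⟨fun ζ m n hU _ => ⟨bound hU n, bound_of_dvd hU n⟩, ?_⟩
  intro ζ h3 h4
  classical
  have hex : ∃ m : ℕ, 1 ≤ m ∧ wExp m ζ = ⊤ := ⟨4, by norm_num, h4⟩
  set m := Nat.find hex with hm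
  have hspec := Nat.find_spec hex
  have hle : m ≤ 4 := Nat.find_min' hex ⟨by norm_num, h4⟩
  have hU : IsUNumberOfType m ζ := by
    refine ⟨hspec.1, hspec.2, ?_⟩
    intro k hk1 hkm htop
    exact Nat.find_min hex hkm ⟨hk1, htop⟩
  have hm1 : 1 ≤ m := hspec.1
  have hdiv : m ∣ 3 ∨ m ∣ 3 + 1 := by
    clear_value m
    interval_cases m <;> decide
  have := bound_of_dvd hU 3 hdiv
  exact absurd h3 (not_lt.mpr (by exact_mod_cast this))

end Pool.Agent.Results.MP_31d6d8_nt.UNumbersDivisor
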